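import Mathlib

/-!
# A positive-fraction version of Kirchberger's theorem
-/

namespace Pool.Agent.Results.MP_ff3a4f_co.Kirchberger

open Finset Filter Topology

section counting

variable {ι : Type*} [DecidableEq ι]

lemma card_super (U W S : Finset ι) (m : ℕ) :
    #{M ∈ U.powersetCard m | S ⊆ M ∧ M ⊆ W} ≤ (#(W \ S)).choose (m - #S) := by
  rw [← card_powersetCard]
  apply card_le_card_of_injOn (fun M => M \ S)
  · intro M hM
    rw [mem_coe, mem_filter, mem_powersetCard] at hM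
    rw [mem_coe, mem_powersetCard]
    refine ⟨sdiff_subset_sdiff hM.2.2 le_rfl, ?_⟩
    rw [card_sdiff_of_subset hM.2.1, hM.1.2]
  · intro M hM M' hM' h
    rw [mem_coe, mem_filter] at hM hM'
    have h1 : M \ S = M' \ S := h
    rw [← sdiff_union_of_subset hM.2.1, h1, sdiff_union_of_subset hM'.2.1]

end counting

section compress

variable {E : Type*} [NormedAddCommGroup E] [InnerProductSpace ℝ E] [FiniteDimensional ℝ E]

lemma exists_min {K : Set E} (hK : IsClosed K) (hne : K.Nonempty) :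
    ∃ p ∈ K, ∀ x ∈ K, ‖p‖ ≤ ‖x‖ := by
  obtain ⟨p, hp, h⟩ := hK.exists_infDist_eq_dist hne 0
  refine ⟨p, hp, fun x hx => ?_⟩
  have := Metric.infDist_le_dist_of_mem (x := 0) hx
  rw [h] at this
  simpa [dist_eq_norm] using this

omit [FiniteDimensional ℝ E] in
lemma min_unique {K : Set E} (hc : Convex ℝ K) {p q : E} (hp : p ∈ K) (hq : q ∈ K)
    (hp' : ∀ x ∈ K, ‖p‖ ≤ ‖x‖) (hq' : ∀ x ∈ K, ‖q‖ ≤ ‖x‖) : p = q := by
  have h1 : ‖p‖ = ‖q‖ := le_antisymm (hp' q hq) (hq' p hp)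
  have h2 : ((1 / 2 : ℝ) • p + (1 / 2 : ℝ) • q) ∈ K :=
    hc hp hq (by norm_num) (by norm_num) (by norm_num)
  have h3 := hp' _ h2
  rw [← smul_add, norm_smul] at h3
  have h4 := parallelogram_law_with_norm ℝ p q
  have h5 : 2 * ‖p‖ ≤ ‖p + q‖ := by
    have : ‖(1 / 2 : ℝ)‖ = 1 / 2 := by norm_num
    rw [this] at h3
    linarith
  have h6 : ‖p - q‖ * ‖p - q‖ ≤ 0 := by
    have h7 : 0 ≤ ‖p‖ := norm_nonneg _
    rw [← h1] at h4
    nlinarith
  have h8 : ‖p - q‖ = 0 := by nlinarith [norm_nonneg (p - q)]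
  exact sub_eq_zero.mp (norm_eq_zero.mp h8)

variable {ι : Type*}

lemma compress {F : ι → Set E} {k : ℕ} (hk : Module.finrank ℝ E + 1 = k) {M : Finset ι}
    (hM : k ≤ #M) (hconv : ∀ i ∈ M, Convex ℝ (F i)) {p : E}
    (hmin : ∀ x ∈ ⋂ i ∈ M, F i, ‖p‖ ≤ ‖x‖) :
    ∃ T ⊆ M, #T = k ∧ ∀ x ∈ ⋂ i ∈ T, F i, ‖p‖ ≤ ‖x‖ := by
  by_contra hcon
  push Not at hcon
  have h := Convex.helly_theorem (𝕜 := ℝ) (F := fun i => F i ∩ Metric.ball 0 ‖p‖) (s := M)
    (by rw [hk]; exact hM) (fun i hi => (hconv i hi).inter (convex_ball _ _)) (by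
      intro I hI hIc
      rw [hk] at hIc
      obtain ⟨x, hx, hxp⟩ := hcon I hI hIc
      refine ⟨x, ?_⟩
      rw [Set.mem_iInter₂] at hx ⊢
      intro i hi
      exact ⟨hx i hi, by simpa using hxp⟩)
  obtain ⟨x, hx⟩ := h
  have hx1 : x ∈ ⋂ i ∈ M, F i := by
    rw [Set.mem_iInter₂] at hx ⊢
    intro i hi
    exact (hx i hi).1
  have hne : M.Nonempty := by
    rw [← card_pos]; omega
  obtain ⟨i, hi⟩ := hne
  rw [Set.mem_iInter₂] at hx
  have h2 := (hx i hi).2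
  rw [Metric.mem_ball, dist_zero_right] at h2
  exact absurd (hmin x hx1) (not_le.mpr h2)

open Classical in
/-- the point of minimal norm in the intersection -/
noncomputable def pt (F : ι → Set E) (T : Finset ι) : E :=
  if h : ∃ p ∈ ⋂ i ∈ T, F i, ∀ x ∈ ⋂ i ∈ T, F i, ‖p‖ ≤ ‖x‖ then h.choose else 0

lemma exists_pt {F : ι → Set E} {k : ℕ} (hk : Module.finrank ℝ E + 1 = k) {M : Finset ι}
    (hM : k ≤ #M) (hconv : ∀ i ∈ M, Convex ℝ (F i)) (hcl : ∀ i ∈ M, IsClosed (F i))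
    (hne : (⋂ i ∈ M, F i).Nonempty) :
    ∃ T ⊆ M, #T = k ∧ ∀ i ∈ M, pt F T ∈ F i := by
  obtain ⟨p, hp, hmin⟩ := exists_min (isClosed_biInter (s := (M : Set ι)) hcl) hne
  obtain ⟨T, hT, hTk, hTmin⟩ := compress hk hM hconv hmin
  have hpT : p ∈ ⋂ i ∈ T, F i := by
    rw [Set.mem_iInter₂]
    intro i hi
    have hp2 : p ∈ ⋂ i ∈ M, F i := hp
    rw [Set.mem_iInter₂] at hp2
    exact hp2 i (hT hi)
  have hex : ∃ p ∈ ⋂ i ∈ T, F i, ∀ x ∈ ⋂ i ∈ T, F i, ‖p‖ ≤ ‖x‖ := ⟨p, hpT, hTmin⟩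
  have hpt : pt F T = p := by
    unfold pt
    rw [dif_pos hex]
    have hs := hex.choose_spec
    apply min_unique (K := ⋂ i ∈ T, F i) _ hs.1 hpT hs.2 hTmin
    exact convex_iInter₂ fun i hi => hconv i (hT hi)
  refine ⟨T, hT, hTk, ?_⟩
  intro i hi
  rw [hpt]
  have hp2 : p ∈ ⋂ i ∈ M, F i := hp
  rw [Set.mem_iInter₂] at hp2
  exact hp2 i hi

open Classical in
theorem count {F : ι → Set E} {k : ℕ} (hk : Module.finrank ℝ E + 1 = k) (U : Finset ι)
    (hconv : ∀ i ∈ U, Convex ℝ (F i)) (hcl : ∀ i ∈ U, IsClosed (F i)) {m b : ℕ} (hm : k ≤ m)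
    (hb : ∀ z : E, #{i ∈ U | z ∈ F i} ≤ b) :
    (#U).choose m ≤ #{S ∈ U.powersetCard k | ¬ (⋂ i ∈ S, F i).Nonempty} *
      (#U - k).choose (m - k) + (#U).choose k * b.choose (m - k) := by
  have hsub : U.powersetCard m ⊆
      ({S ∈ U.powersetCard k | ¬ (⋂ i ∈ S, F i).Nonempty}.biUnion
        fun S => {M ∈ U.powersetCard m | S ⊆ M ∧ M ⊆ U}) ∪
      ((U.powersetCard k).biUnion
        fun T => {M ∈ U.powersetCard m | T ⊆ M ∧ M ⊆ {i ∈ U | pt F T ∈ F i}}) := by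
    intro M hM
    have hM' := mem_powersetCard.mp hM
    rw [mem_union, mem_biUnion, mem_biUnion]
    by_cases hbad : ∃ S ⊆ M, #S = k ∧ ¬ (⋂ i ∈ S, F i).Nonempty
    · left
      obtain ⟨S, h1, h2, h3⟩ := hbad
      exact ⟨S, mem_filter.mpr ⟨mem_powersetCard.mpr ⟨h1.trans hM'.1, h2⟩, h3⟩,
        mem_filter.mpr ⟨hM, h1, hM'.1⟩⟩
    · right
      push Not at hbad
      have hne : (⋂ i ∈ M, F i).Nonempty := by
        apply Convex.helly_theorem (𝕜 := ℝ)
        · rw [hk, hM'.2]; exact hm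
        · exact fun i hi => hconv i (hM'.1 hi)
        · intro I hI hIc
          exact hbad I hI (by rw [hIc, hk])
      obtain ⟨T, h1, h2, h3⟩ := exists_pt hk (by rw [hM'.2]; exact hm)
        (fun i hi => hconv i (hM'.1 hi)) (fun i hi => hcl i (hM'.1 hi)) hne
      refine ⟨T, mem_powersetCard.mpr ⟨h1.trans hM'.1, h2⟩, mem_filter.mpr ⟨hM, h1, ?_⟩⟩
      intro i hi
      exact mem_filter.mpr ⟨hM'.1 hi, h3 i hi⟩
  rw [← card_powersetCard]
  refine (card_le_card hsub).trans ((card_union_le _ _).trans (Nat.add_le_add ?_ ?_))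
  · apply card_biUnion_le_card_mul
    intro S hS
    have hS' := mem_powersetCard.mp (mem_filter.mp hS).1
    have := card_super U U S m
    rwa [card_sdiff_of_subset hS'.1, hS'.2] at this
  · rw [← card_powersetCard k U]
    apply card_biUnion_le_card_mul
    intro T hT
    have hT' := mem_powersetCard.mp hT
    have := card_super U {i ∈ U | pt F T ∈ F i} T m
    rw [hT'.2] at this
    refine this.trans (Nat.choose_le_choose _ ?_)
    exact (card_le_card sdiff_subset).trans (hb _)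

end compress

section estimates

lemma choose_ratio (a b k : ℕ) (ρ : ℝ) (h0 : 0 ≤ ρ) (h1 : ρ ≤ 1) (hb : (b : ℝ) ≤ ρ * a) :
    (b.choose k : ℝ) ≤ ρ ^ k * (a.choose k : ℝ) := by
  have key : (b.descFactorial k : ℝ) ≤ ρ ^ k * (a.descFactorial k : ℝ) := by
    induction k with
    | zero => simp
    | succ k ih =>
      rw [Nat.descFactorial_succ, Nat.descFactorial_succ, Nat.cast_mul, Nat.cast_mul, pow_succ]
      have h2 : ((b - k : ℕ) : ℝ) ≤ ρ * ((a - k : ℕ) : ℝ) := by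
        rcases le_total b k with hbk | hbk
        · rw [Nat.sub_eq_zero_of_le hbk]
          simp only [Nat.cast_zero]
          positivity
        · have hab : (b : ℝ) ≤ a := by
            refine hb.trans ?_
            nlinarith [(Nat.cast_nonneg a : (0 : ℝ) ≤ a)]
          have hab' : b ≤ a := by exact_mod_cast hab
          rw [Nat.cast_sub hbk, Nat.cast_sub (hbk.trans hab')]
          nlinarith [(Nat.cast_nonneg k : (0 : ℝ) ≤ k)]
      calc ((b - k : ℕ) : ℝ) * (b.descFactorial k : ℝ)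
          ≤ (ρ * ((a - k : ℕ) : ℝ)) * (ρ ^ k * (a.descFactorial k : ℝ)) := by
            apply mul_le_mul h2 ih (by positivity) (by positivity)
        _ = ρ ^ k * ρ * (((a - k : ℕ) : ℝ) * (a.descFactorial k : ℝ)) := by ring
  rw [Nat.descFactorial_eq_factorial_mul_choose, Nat.descFactorial_eq_factorial_mul_choose,
    Nat.cast_mul, Nat.cast_mul] at key
  have hf : (0 : ℝ) < (k.factorial : ℝ) := by exact_mod_cast Nat.factorial_pos k
  have h3 : (k.factorial : ℝ) * (b.choose k : ℝ) ≤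
      (k.factorial : ℝ) * (ρ ^ k * (a.choose k : ℝ)) := by
    calc _ ≤ ρ ^ k * ((k.factorial : ℝ) * (a.choose k : ℝ)) := key
      _ = _ := by ring
  exact le_of_mul_le_mul_left h3 hf

lemma exists_m (k : ℕ) (ρ : ℝ) (h0 : 0 < ρ) (h1 : ρ < 1) :
    ∃ m : ℕ, k ≤ m ∧ (m.choose k : ℝ) * ρ ^ (m - k) < 1 / 2 := by
  have h2 := tendsto_pow_const_mul_const_pow_of_abs_lt_one k
    (r := ρ) (by rw [abs_of_pos h0]; exact h1)
  have h3 : ∀ᶠ n : ℕ in atTop, (n : ℝ) ^ k * ρ ^ n < ρ ^ k / 2 :=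
    h2.eventually (gt_mem_nhds (by positivity))
  obtain ⟨m, hm1, hm2⟩ := (h3.and (eventually_ge_atTop k)).exists
  refine ⟨m, hm2, ?_⟩
  have h4 : (m.choose k : ℝ) ≤ (m : ℝ) ^ k := by exact_mod_cast Nat.choose_le_pow m k
  have h5 : ρ ^ m = ρ ^ k * ρ ^ (m - k) := by
    rw [← pow_add]; congr 1; omega
  rw [h5] at hm1
  have h6 : (0 : ℝ) < ρ ^ k := by positivity
  have h7 : (0 : ℝ) < ρ ^ (m - k) := by positivity
  have h8 : ρ ^ k * ((m : ℝ) ^ k * ρ ^ (m - k)) < ρ ^ k * (1 / 2) := by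
    calc _ = (m : ℝ) ^ k * (ρ ^ k * ρ ^ (m - k)) := by ring
      _ < ρ ^ k / 2 := hm1
      _ = _ := by ring
  have h9 := lt_of_mul_lt_mul_left h8 h6.le
  refine lt_of_le_of_lt ?_ h9
  exact mul_le_mul_of_nonneg_right h4 h7.le

end estimates

section main

variable {E : Type*} [NormedAddCommGroup E] [InnerProductSpace ℝ E] [FiniteDimensional ℝ E]

open Classical in
/-- Fractional Helly theorem with fraction tending to `1`. -/
theorem frac_helly {k : ℕ} (hk : Module.finrank ℝ E + 1 = k) (δ : ℝ) (hδ : 0 < δ) (hδ1 : δ < 1) :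
    ∃ ε : ℝ, 0 < ε ∧ ∀ (ι : Type) (F : ι → Set E) (U : Finset ι),
      (∀ i ∈ U, Convex ℝ (F i)) → (∀ i ∈ U, IsClosed (F i)) → k ≤ #U →
      (#{S ∈ U.powersetCard k | ¬ (⋂ i ∈ S, F i).Nonempty} : ℝ) ≤ ε * ((#U).choose k : ℝ) →
      ∃ z : E, (1 - δ) * (#U : ℝ) ≤ (#{i ∈ U | z ∈ F i} : ℝ) := by
  obtain ⟨m, hm, hmρ⟩ := exists_m k (1 - δ / 2) (by linarith) (by linarith)
  set ρ : ℝ := 1 - δ / 2 with hρ
  set N0 : ℕ := max m ⌈2 * (k : ℝ) / δ⌉₊ with hN0
  have hden : (0 : ℝ) < 2 * ((m.choose k : ℝ) + (N0.choose k : ℝ) + 1) := by positivity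
  refine ⟨1 / (2 * ((m.choose k : ℝ) + (N0.choose k : ℝ) + 1)), by positivity, ?_⟩
  set ε : ℝ := 1 / (2 * ((m.choose k : ℝ) + (N0.choose k : ℝ) + 1)) with hε
  have hεpos : 0 < ε := by positivity
  have hεeq : ε * (2 * ((m.choose k : ℝ) + (N0.choose k : ℝ) + 1)) = 1 := by
    rw [hε]; field_simp
  have hc1 : (0 : ℝ) ≤ (m.choose k : ℝ) := Nat.cast_nonneg _
  have hc2 : (0 : ℝ) ≤ (N0.choose k : ℝ) := Nat.cast_nonneg _
  intro ι F U hconv hcl hU hbad
  by_cases hn : #U ≤ N0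
  · have h1 : ((#U).choose k : ℝ) ≤ (N0.choose k : ℝ) := by
      exact_mod_cast Nat.choose_le_choose k hn
    have h2 : (#{S ∈ U.powersetCard k | ¬ (⋂ i ∈ S, F i).Nonempty} : ℝ) < 1 := by
      refine lt_of_le_of_lt hbad ?_
      nlinarith
    have h3 : #{S ∈ U.powersetCard k | ¬ (⋂ i ∈ S, F i).Nonempty} = 0 := by
      have : #{S ∈ U.powersetCard k | ¬ (⋂ i ∈ S, F i).Nonempty} < 1 := by exact_mod_cast h2
      omega
    rw [card_eq_zero, filter_eq_empty_iff] at h3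
    have h4 : (⋂ i ∈ U, F i).Nonempty := by
      apply Convex.helly_theorem (𝕜 := ℝ)
      · rw [hk]; exact hU
      · exact hconv
      · intro I hI hIc
        exact not_not.mp (h3 (mem_powersetCard.mpr ⟨hI, by rw [hIc, hk]⟩))
    obtain ⟨z, hz⟩ := h4
    rw [Set.mem_iInter₂] at hz
    refine ⟨z, ?_⟩
    rw [filter_true_of_mem hz]
    nlinarith [(Nat.cast_nonneg #U : (0 : ℝ) ≤ (#U : ℝ))]
  · by_contra hcon
    push Not at hcon hn
    have hb : ∀ z : E, #{i ∈ U | z ∈ F i} ≤ ⌊(1 - δ) * (#U : ℝ)⌋₊ := by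
      intro z
      exact Nat.le_floor (hcon z).le
    have hcount := count hk U hconv hcl hm hb
    have hnk : k ≤ #U := hU
    have hnm : m ≤ #U := (le_max_left _ _).trans hn.le
    have hbr : ((⌊(1 - δ) * (#U : ℝ)⌋₊ : ℕ) : ℝ) ≤ ρ * ((#U - k : ℕ) : ℝ) := by
      refine (Nat.floor_le (mul_nonneg (by linarith) (Nat.cast_nonneg _))).trans ?_
      rw [Nat.cast_sub hnk]
      have h5 : 2 * (k : ℝ) / δ ≤ (#U : ℝ) := by
        refine (Nat.le_ceil _).trans ?_
        exact_mod_cast (le_max_right m _).trans hn.le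
      rw [div_le_iff₀ hδ] at h5
      have h6 : (0 : ℝ) ≤ (k : ℝ) := Nat.cast_nonneg _
      rw [hρ]
      nlinarith
    have h7 := choose_ratio (#U - k) ⌊(1 - δ) * (#U : ℝ)⌋₊ (m - k) ρ (by linarith) (by linarith)
      hbr
    have h8 : ((#U).choose m : ℝ) ≤
        (#{S ∈ U.powersetCard k | ¬ (⋂ i ∈ S, F i).Nonempty} : ℝ) *
        ((#U - k).choose (m - k) : ℝ) +
        ((#U).choose k : ℝ) * ((⌊(1 - δ) * (#U : ℝ)⌋₊).choose (m - k) : ℝ) := by
      exact_mod_cast hcount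
    have h9 : ((#U).choose m : ℝ) * (m.choose k : ℝ) =
        ((#U).choose k : ℝ) * ((#U - k).choose (m - k) : ℝ) := by
      exact_mod_cast Nat.choose_mul hm
    have h10 : (0 : ℝ) < ((#U).choose m : ℝ) := by exact_mod_cast Nat.choose_pos hnm
    have h11 : (0 : ℝ) ≤ ((#U - k).choose (m - k) : ℝ) := Nat.cast_nonneg _
    have h12 : (0 : ℝ) ≤ ((#U).choose k : ℝ) := Nat.cast_nonneg _
    have h13 : ((#U).choose m : ℝ) ≤ ε * (((#U).choose k : ℝ) *
        ((#U - k).choose (m - k) : ℝ)) + ρ ^ (m - k) * (((#U).choose k : ℝ) *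
        ((#U - k).choose (m - k) : ℝ)) := by
      refine h8.trans (add_le_add ?_ ?_)
      · calc _ ≤ (ε * ((#U).choose k : ℝ)) * ((#U - k).choose (m - k) : ℝ) :=
              mul_le_mul_of_nonneg_right hbad h11
          _ = _ := by ring
      · calc _ ≤ ((#U).choose k : ℝ) * (ρ ^ (m - k) * ((#U - k).choose (m - k) : ℝ)) :=
              mul_le_mul_of_nonneg_left h7 h12
          _ = _ := by ring
    rw [← h9] at h13
    have h14 : ε * (m.choose k : ℝ) ≤ 1 / 2 := by nlinarith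
    have h15 : ((#U).choose m : ℝ) * (ε * (m.choose k : ℝ) + (m.choose k : ℝ) * ρ ^ (m - k)) <
        ((#U).choose m : ℝ) * 1 := by
      apply mul_lt_mul_of_pos_left _ h10
      linarith
    nlinarith

end main

section application

variable {d : ℕ}

/-- `P` and `Q` are separated by a hyperplane `{x | ⟪w, x⟫ = c}`: one lies in one open half-space
and the other in the other. An empty set is separated from any set. -/
def Separated (P Q : Finset (EuclideanSpace ℝ (Fin d))) : Prop :=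
  P = ∅ ∨ Q = ∅ ∨ ∃ (w : EuclideanSpace ℝ (Fin d)) (c : ℝ), w ≠ 0 ∧
    (∀ p ∈ P, c < inner ℝ w p) ∧ (∀ q ∈ Q, inner ℝ w q < c)

/-- General position: every subset of at most `d + 1` points is affinely independent. -/
def GeneralPosition (U : Finset (EuclideanSpace ℝ (Fin d))) : Prop :=
  ∀ S ⊆ U, #S ≤ d + 1 → AffineIndependent ℝ (fun x : S => (x : EuclideanSpace ℝ (Fin d)))

/-- the lifted space -/
abbrev Lift (d : ℕ) := WithLp 2 (EuclideanSpace ℝ (Fin d) × ℝ)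

lemma finrank_lift : Module.finrank ℝ (Lift d) + 1 = d + 2 := by
  have h : Module.finrank ℝ (Lift d) = Module.finrank ℝ (EuclideanSpace ℝ (Fin d) × ℝ) :=
    LinearEquiv.finrank_eq (WithLp.linearEquiv 2 ℝ _)
  rw [h, Module.finrank_prod, finrank_euclideanSpace_fin, Module.finrank_self]

/-- the lifted vector -/
noncomputable def lv (x : EuclideanSpace ℝ (Fin d)) : Lift d := WithLp.toLp 2 (x, -1)

lemma inner_lv (x : EuclideanSpace ℝ (Fin d)) (z : Lift d) :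
    inner ℝ (lv x) z = inner ℝ z.fst x - z.snd := by
  rw [WithLp.prod_inner_apply]
  simp [lv, real_inner_comm]
  ring

open Classical in
/-- the closed half-space attached to a point -/
noncomputable def hs (A : Finset (EuclideanSpace ℝ (Fin d))) (x : EuclideanSpace ℝ (Fin d)) :
    Set (Lift d) :=
  if x ∈ A then {z | 1 ≤ inner ℝ (lv x) z} else {z | inner ℝ (lv x) z ≤ -1}

lemma hs_convex (A : Finset (EuclideanSpace ℝ (Fin d))) (x : EuclideanSpace ℝ (Fin d)) :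
    Convex ℝ (hs A x) := by
  unfold hs
  split_ifs
  · exact convex_halfSpace_ge (innerₛₗ ℝ (lv x)).isLinear 1
  · exact convex_halfSpace_le (innerₛₗ ℝ (lv x)).isLinear (-1)

lemma hs_closed (A : Finset (EuclideanSpace ℝ (Fin d))) (x : EuclideanSpace ℝ (Fin d)) :
    IsClosed (hs A x) := by
  unfold hs
  split_ifs
  · exact isClosed_le continuous_const (by fun_prop)
  · exact isClosed_le (by fun_prop) continuous_const

lemma sep_of_mem (A B : Finset (EuclideanSpace ℝ (Fin d))) (z : Lift d)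
    (hA : ∀ x ∈ A, 1 ≤ inner ℝ (lv x) z) (hB : ∀ x ∈ B, inner ℝ (lv x) z ≤ -1) :
    Separated A B := by
  unfold Separated
  by_cases hA0 : A = ∅
  · exact Or.inl hA0
  by_cases hB0 : B = ∅
  · exact Or.inr (Or.inl hB0)
  right; right
  obtain ⟨a, ha⟩ := Finset.nonempty_iff_ne_empty.mpr hA0
  obtain ⟨b, hb⟩ := Finset.nonempty_iff_ne_empty.mpr hB0
  have h1 : ∀ x ∈ A, z.snd < inner ℝ z.fst x := by
    intro x hx
    have := hA x hx
    rw [inner_lv] at this
    linarith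
  have h2 : ∀ x ∈ B, inner ℝ z.fst x < z.snd := by
    intro x hx
    have := hB x hx
    rw [inner_lv] at this
    linarith
  refine ⟨z.fst, z.snd, ?_, h1, h2⟩
  intro h0
  have h3 := h1 a ha
  have h4 := h2 b hb
  rw [h0, inner_zero_left] at h3 h4
  linarith

lemma exists_of_sep (P Q : Finset (EuclideanSpace ℝ (Fin d))) (h : Separated P Q) :
    ∃ z : Lift d, (∀ x ∈ P, 1 ≤ inner ℝ (lv x) z) ∧ (∀ x ∈ Q, inner ℝ (lv x) z ≤ -1) := by
  rcases h with rfl | rfl | ⟨w, c, _, h1, h2⟩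
  · refine ⟨WithLp.toLp 2 (0, 1), by simp, ?_⟩
    intro x _
    rw [inner_lv]
    simp
  · refine ⟨WithLp.toLp 2 (0, -1), ?_, by simp⟩
    intro x _
    rw [inner_lv]
    simp
  · have key : ∃ μ : ℝ, 0 < μ ∧ (∀ p ∈ P, μ ≤ inner ℝ w p - c) ∧
        (∀ q ∈ Q, μ ≤ c - inner ℝ w q) := by
      have hP : ∃ μ : ℝ, 0 < μ ∧ (∀ p ∈ P, μ ≤ inner ℝ w p - c) := by
        rcases P.eq_empty_or_nonempty with rfl | hne
        · exact ⟨1, one_pos, by simp⟩
        · obtain ⟨p, hp, hpm⟩ := P.exists_min_image (fun p => inner ℝ w p - c) hne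
          exact ⟨inner ℝ w p - c, by linarith [h1 p hp], hpm⟩
      have hQ : ∃ μ : ℝ, 0 < μ ∧ (∀ q ∈ Q, μ ≤ c - inner ℝ w q) := by
        rcases Q.eq_empty_or_nonempty with rfl | hne
        · exact ⟨1, one_pos, by simp⟩
        · obtain ⟨p, hp, hpm⟩ := Q.exists_min_image (fun p => c - inner ℝ w p) hne
          exact ⟨c - inner ℝ w p, by linarith [h2 p hp], hpm⟩
      obtain ⟨μ1, h3, h4⟩ := hP
      obtain ⟨μ2, h5, h6⟩ := hQ
      exact ⟨min μ1 μ2, lt_min h3 h5, fun p hp => (min_le_left _ _).trans (h4 p hp),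
        fun q hq => (min_le_right _ _).trans (h6 q hq)⟩
    obtain ⟨μ, hμ, h3, h4⟩ := key
    refine ⟨WithLp.toLp 2 ((1 / μ) • w, (1 / μ) * c), ?_, ?_⟩
    · intro x hx
      rw [inner_lv]
      show 1 ≤ inner ℝ ((1 / μ) • w) x - (1 / μ) * c
      rw [real_inner_smul_left, ← mul_sub]
      have h5 := h3 x hx
      have h6 : (1 / μ) * μ = 1 := by field_simp
      have h7 : (1 / μ) * μ ≤ (1 / μ) * (inner ℝ w x - c) :=
        mul_le_mul_of_nonneg_left h5 (by positivity)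
      linarith
    · intro x hx
      rw [inner_lv]
      show inner ℝ ((1 / μ) • w) x - (1 / μ) * c ≤ -1
      rw [real_inner_smul_left, ← mul_sub]
      have h5 := h4 x hx
      have h6 : (1 / μ) * μ = 1 := by field_simp
      have h7 : (1 / μ) * μ ≤ (1 / μ) * (c - inner ℝ w x) :=
        mul_le_mul_of_nonneg_left h5 (by positivity)
      have h8 : (1 / μ) * (c - inner ℝ w x) = - ((1 / μ) * (inner ℝ w x - c)) := by ring
      linarith

open Classical in
lemma good_iff {A B S : Finset (EuclideanSpace ℝ (Fin d))}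
    (hS : S ⊆ A ∪ B) (h : Separated (A ∩ S) (B ∩ S)) : (⋂ x ∈ S, hs A x).Nonempty := by
  obtain ⟨z, h1, h2⟩ := exists_of_sep _ _ h
  refine ⟨z, ?_⟩
  rw [Set.mem_iInter₂]
  intro x hx
  unfold hs
  split_ifs with hxA
  · exact h1 x (mem_inter.mpr ⟨hxA, hx⟩)
  · refine h2 x (mem_inter.mpr ⟨?_, hx⟩)
    rcases mem_union.mp (hS hx) with h3 | h3
    · exact absurd h3 hxA
    · exact h3

open Classical in
lemma sep_of_indep {A B : Finset (EuclideanSpace ℝ (Fin d))} (hAB : Disjoint A B)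
    (h : AffineIndependent ℝ (fun x : (A ∪ B : Finset (EuclideanSpace ℝ (Fin d))) =>
      (x : EuclideanSpace ℝ (Fin d)))) :
    Separated A B := by
  unfold Separated
  by_cases hA0 : A = ∅
  · exact Or.inl hA0
  by_cases hB0 : B = ∅
  · exact Or.inr (Or.inl hB0)
  right; right
  obtain ⟨a, ha⟩ := Finset.nonempty_iff_ne_empty.mpr hA0
  obtain ⟨b, hb⟩ := Finset.nonempty_iff_ne_empty.mpr hB0
  have h1 := AffineIndependent.convexHull_inter (R := ℝ) h
    (t₁ := A) (t₂ := B) subset_union_left subset_union_right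
  have h2 : (A : Set (EuclideanSpace ℝ (Fin d))) ∩ B = ∅ := by
    rw [← coe_inter, disjoint_iff_inter_eq_empty.mp hAB, coe_empty]
  rw [h2, convexHull_empty] at h1
  have h3 : Disjoint (convexHull ℝ (B : Set (EuclideanSpace ℝ (Fin d))))
      (convexHull ℝ (A : Set (EuclideanSpace ℝ (Fin d)))) := by
    rw [Set.disjoint_iff_inter_eq_empty, Set.inter_comm]
    exact h1.symm
  obtain ⟨f, u, v, h4, h5, h6⟩ := geometric_hahn_banach_compact_closed
    (convex_convexHull ℝ _) (B.finite_toSet.isCompact_convexHull (𝕜 := ℝ))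
    (convex_convexHull ℝ _) (A.finite_toSet.isClosed_convexHull (𝕜 := ℝ)) h3
  have h7 : ∀ x, inner ℝ ((InnerProductSpace.toDual ℝ _).symm f) x = f x := fun x =>
    InnerProductSpace.toDual_symm_apply
  have h8 : ∀ p ∈ A, v < inner ℝ ((InnerProductSpace.toDual ℝ _).symm f) p := by
    intro p hp
    rw [h7]
    exact h6 p (subset_convexHull ℝ _ hp)
  have h9 : ∀ q ∈ B, inner ℝ ((InnerProductSpace.toDual ℝ _).symm f) q < v := by
    intro q hq
    rw [h7]
    exact (h4 q (subset_convexHull ℝ _ hq)).trans h5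
  refine ⟨(InnerProductSpace.toDual ℝ _).symm f, v, ?_, h8, h9⟩
  intro h0
  have h10 := h8 a ha
  have h11 := h9 b hb
  rw [h0, inner_zero_left] at h10 h11
  linarith

open Classical in
/-- The property asked for, at given `d`, `ε`, `δ`. -/
def Prp (d : ℕ) (ε δ : ℝ) : Prop :=
  ∀ (N : ℕ) (A B : Finset (EuclideanSpace ℝ (Fin d))), Disjoint A B → #A = N → #B = N →
    (GeneralPosition (A ∪ B) ∨ d + 2 ≤ 2 * N) →
    (1 - ε) * ((2 * N).choose (d + 2) : ℝ) ≤
      (#{S ∈ (A ∪ B).powersetCard (d + 2) | Separated (A ∩ S) (B ∩ S)} : ℝ) →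
    ∃ A' ⊆ A, ∃ B' ⊆ B, Separated A' B' ∧ (1 - δ) * (N : ℝ) ≤ (#A' : ℝ) ∧
      (1 - δ) * (N : ℝ) ≤ (#B' : ℝ)

lemma prp_mono {d : ℕ} {ε ε' δ δ' : ℝ} (h : Prp d ε δ) (he : ε' ≤ ε) (hd : δ ≤ δ') :
    Prp d ε' δ' := by
  intro N A B h1 h2 h3 h4 h5
  obtain ⟨A', hA, B', hB, h6, h7, h8⟩ := h N A B h1 h2 h3 h4 (by
    refine le_trans ?_ h5
    have : (0 : ℝ) ≤ ((2 * N).choose (d + 2) : ℝ) := Nat.cast_nonneg _
    nlinarith)
  have hN : (0 : ℝ) ≤ (N : ℝ) := Nat.cast_nonneg _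
  exact ⟨A', hA, B', hB, h6, by nlinarith, by nlinarith⟩

lemma prp_one {d : ℕ} (ε : ℝ) : Prp d ε 1 := by
  intro N A B h1 h2 h3 h4 h5
  exact ⟨∅, by simp, ∅, by simp, Or.inl rfl, by simp, by simp⟩

lemma prp_small (d : ℕ) (δ : ℝ) (hδ : 0 < δ) : ∃ ε : ℝ, 0 < ε ∧ Prp d ε δ := by
  classical
  wlog hδ1 : δ < 1 generalizing δ
  · exact ⟨1, one_pos, prp_mono (prp_one 1) le_rfl (not_lt.mp hδ1)⟩
  obtain ⟨ε, hε, h⟩ := frac_helly (E := Lift d) (k := d + 2) finrank_lift (δ / 2)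
    (by linarith) (by linarith)
  refine ⟨ε, hε, ?_⟩
  intro N A B hAB hA hB hgp hgood
  have hcard : #(A ∪ B) = 2 * N := by
    rw [card_union_of_disjoint hAB, hA, hB]; ring
  have hN0 : (0 : ℝ) ≤ (N : ℝ) := Nat.cast_nonneg _
  by_cases hN : d + 2 ≤ 2 * N
  · have hbad : (#{S ∈ (A ∪ B).powersetCard (d + 2) | ¬ (⋂ i ∈ S, hs A i).Nonempty} : ℝ) ≤
        ε * ((#(A ∪ B)).choose (d + 2) : ℝ) := by
      have h1 : #{S ∈ (A ∪ B).powersetCard (d + 2) | ¬ (⋂ i ∈ S, hs A i).Nonempty} ≤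
          #{S ∈ (A ∪ B).powersetCard (d + 2) | ¬ Separated (A ∩ S) (B ∩ S)} := by
        apply card_le_card
        intro S hS
        rw [mem_filter] at hS ⊢
        refine ⟨hS.1, fun hsep => hS.2 ?_⟩
        have := good_iff (mem_powersetCard.mp hS.1).1 hsep
        exact this
      have h2 : #{S ∈ (A ∪ B).powersetCard (d + 2) | Separated (A ∩ S) (B ∩ S)} +
          #{S ∈ (A ∪ B).powersetCard (d + 2) | ¬ Separated (A ∩ S) (B ∩ S)} =
          (#(A ∪ B)).choose (d + 2) := by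
        rw [card_filter_add_card_filter_not, card_powersetCard]
      have h1' : (#{S ∈ (A ∪ B).powersetCard (d + 2) | ¬ (⋂ i ∈ S, hs A i).Nonempty} : ℝ) ≤
          (#{S ∈ (A ∪ B).powersetCard (d + 2) | ¬ Separated (A ∩ S) (B ∩ S)} : ℝ) := by
        exact_mod_cast h1
      have h2' : (#{S ∈ (A ∪ B).powersetCard (d + 2) | Separated (A ∩ S) (B ∩ S)} : ℝ) +
          (#{S ∈ (A ∪ B).powersetCard (d + 2) | ¬ Separated (A ∩ S) (B ∩ S)} : ℝ) =
          ((#(A ∪ B)).choose (d + 2) : ℝ) := by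
        exact_mod_cast h2
      rw [hcard] at h2' ⊢
      linarith
    obtain ⟨z, hz⟩ := h _ (hs A) (A ∪ B) (fun i _ => hs_convex A i) (fun i _ => hs_closed A i)
      (by rw [hcard]; exact hN) hbad
    rw [hcard] at hz
    push_cast at hz
    refine ⟨{x ∈ A | z ∈ hs A x}, filter_subset _ _, {x ∈ B | z ∈ hs A x},
      filter_subset _ _, ?_, ?_, ?_⟩
    · apply sep_of_mem _ _ z
      · intro x hx
        rw [mem_filter] at hx
        have h3 := hx.2
        unfold hs at h3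
        rw [if_pos hx.1] at h3
        exact h3
      · intro x hx
        rw [mem_filter] at hx
        have h3 := hx.2
        unfold hs at h3
        rw [if_neg (disjoint_right.mp hAB hx.1)] at h3
        exact h3
    all_goals
      have h4 : #{i ∈ A ∪ B | z ∈ hs A i} ≤ #{x ∈ A | z ∈ hs A x} + #{x ∈ B | z ∈ hs A x} := by
        rw [filter_union]
        exact card_union_le _ _
      have h4' : (#{i ∈ A ∪ B | z ∈ hs A i} : ℝ) ≤
          (#{x ∈ A | z ∈ hs A x} : ℝ) + (#{x ∈ B | z ∈ hs A x} : ℝ) := by exact_mod_cast h4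
      have h5 : (#{x ∈ A | z ∈ hs A x} : ℝ) ≤ (N : ℝ) := by
        rw [← hA]; exact_mod_cast card_filter_le _ _
      have h6 : (#{x ∈ B | z ∈ hs A x} : ℝ) ≤ (N : ℝ) := by
        rw [← hB]; exact_mod_cast card_filter_le _ _
      nlinarith
  · have hgp' : GeneralPosition (A ∪ B) := hgp.resolve_right hN
    have hind := hgp' (A ∪ B) le_rfl (by rw [hcard]; omega)
    refine ⟨A, le_rfl, B, le_rfl, sep_of_indep hAB hind, ?_, ?_⟩
    · rw [hA]; nlinarith
    · rw [hB]; nlinarith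

end application

open Classical in
/-- **Positive-fraction Kirchberger theorem.** For each `d` there is a function `g` with
`g ε → 0` as `ε → 0⁺` such that for all `ε > 0`, all `N` and all disjoint `A, B ⊂ ℝ^d` with
`|A| = |B| = N` (and `A ∪ B` in general position, which is only used when `2 N < d + 2`): if at
least `(1 - ε) * C(2N, d+2)` of the `(d+2)`-subsets of `A ∪ B` are good, then there are separated
`A' ⊆ A`, `B' ⊆ B` with `|A'|, |B'| ≥ (1 - g ε) N`. -/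
theorem result (d : ℕ) : ∃ g : ℝ → ℝ, Tendsto g (𝓝[>] 0) (𝓝 0) ∧
    ∀ ε : ℝ, 0 < ε → ∀ (N : ℕ) (A B : Finset (EuclideanSpace ℝ (Fin d))),
      Disjoint A B → #A = N → #B = N →
      (GeneralPosition (A ∪ B) ∨ d + 2 ≤ 2 * N) →
      (1 - ε) * ((2 * N).choose (d + 2) : ℝ) ≤
        (#{S ∈ (A ∪ B).powersetCard (d + 2) | Separated (A ∩ S) (B ∩ S)} : ℝ) →
      ∃ A' ⊆ A, ∃ B' ⊆ B, Separated A' B' ∧ (1 - g ε) * (N : ℝ) ≤ (#A' : ℝ) ∧
        (1 - g ε) * (N : ℝ) ≤ (#B' : ℝ) := by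
  have hne : ∀ ε : ℝ, {δ : ℝ | 0 ≤ δ ∧ Prp d ε δ}.Nonempty := fun ε =>
    ⟨1, zero_le_one, prp_one ε⟩
  have hbdd : ∀ ε : ℝ, BddBelow {δ : ℝ | 0 ≤ δ ∧ Prp d ε δ} := fun ε => ⟨0, fun δ h => h.1⟩
  refine ⟨fun ε => sInf {δ : ℝ | 0 ≤ δ ∧ Prp d ε δ} + ε, ?_, ?_⟩
  · rw [Metric.tendsto_nhdsWithin_nhds]
    intro η hη
    obtain ⟨ε0, hε0, hp⟩ := prp_small d (η / 2) (by linarith)
    refine ⟨min ε0 (η / 2), lt_min hε0 (by linarith), ?_⟩
    intro ε hε hdist
    have hε' : 0 < ε := hε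
    rw [dist_zero_right, Real.norm_eq_abs, abs_of_pos hε', lt_min_iff] at hdist
    have h1 : sInf {δ : ℝ | 0 ≤ δ ∧ Prp d ε δ} ≤ η / 2 :=
      csInf_le (hbdd ε) ⟨by linarith, prp_mono hp hdist.1.le le_rfl⟩
    have h2 : 0 ≤ sInf {δ : ℝ | 0 ≤ δ ∧ Prp d ε δ} := le_csInf (hne ε) fun δ h => h.1
    rw [dist_zero_right, Real.norm_eq_abs, abs_of_nonneg (by linarith)]
    linarith
  · intro ε hε
    obtain ⟨δ, hδ, hlt⟩ := exists_lt_of_csInf_lt (hne ε)
      (show sInf {δ : ℝ | 0 ≤ δ ∧ Prp d ε δ} < sInf {δ : ℝ | 0 ≤ δ ∧ Prp d ε δ} + ε by linarith)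
    exact prp_mono hδ.2 le_rfl hlt.le

end Pool.Agent.Results.MP_ff3a4f_co.Kirchberger
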